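import Mathlib
import Pool.Agent.H34.L.H293R3.BC.Count
import Pool.Agent.H34.L.H931R3.Bal14

set_option autoImplicit false

/-!
# Interval orders whose balance constant stays away from one half
-/

open Finset

namespace Pool.Agent.TH447.KS

open Pool.Agent.H293R3.BC

/-- representation of a (reflexive) order on `Fin n` by intervals -/
def Rep {n : ℕ} (r : Fin n → Fin n → Prop) : Prop :=
  ∃ l u : Fin n → ℝ, (∀ a, l a ≤ u a) ∧ ∀ a b, (r a b ∧ a ≠ b) ↔ u a < l b

lemma fin_bounds {n : ℕ} (l u : Fin n → ℝ) : ∃ B C : ℝ, B ≤ C ∧ (∀ a, B ≤ l a) ∧ ∀ a, u a ≤ C := by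
  obtain ⟨B, hB⟩ := (Set.finite_range l).bddBelow
  obtain ⟨C, hC⟩ := (Set.finite_range u).bddAbove
  refine ⟨min B C, max B C, min_le_max, fun a => (min_le_left _ _).trans (hB ⟨a, rfl⟩), fun a =>
    (hC ⟨a, rfl⟩).trans (le_max_right _ _)⟩

lemma rep_true {n : ℕ} {r : Fin n → Fin n → Prop} (h : Rep r) : Rep (ext True r) := by
  obtain ⟨l, u, h1, h2⟩ := h
  obtain ⟨B, C, -, hB, -⟩ := fin_bounds l u
  refine ⟨Fin.cases (B - 2) l, Fin.cases (B - 1) u, ?_, ?_⟩
  · intro a
    rcases Fin.eq_zero_or_eq_succ a with rfl | ⟨i, rfl⟩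
    · simp only [Fin.cases_zero]; linarith
    · simp only [Fin.cases_succ]; exact h1 i
  · intro a b
    rcases Fin.eq_zero_or_eq_succ a with rfl | ⟨i, rfl⟩ <;>
      rcases Fin.eq_zero_or_eq_succ b with rfl | ⟨j, rfl⟩
    · simp only [Fin.cases_zero, ne_eq, not_true_eq_false, and_false, false_iff, not_lt]
      linarith
    · simp only [Fin.cases_zero, Fin.cases_succ, ext_zs, ne_eq, true_and]
      have : B - 1 < l j := by linarith [hB j]
      simp only [this, iff_true]
      exact (Fin.succ_ne_zero j).symm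
    · simp only [Fin.cases_zero, Fin.cases_succ, ext_sz, false_and, false_iff, not_lt]
      linarith [hB i, h1 i]
    · simp only [Fin.cases_succ, ext_ss, ne_eq, Fin.succ_inj]
      exact h2 i j

lemma rep_false {n : ℕ} {r : Fin n → Fin n → Prop} (h : Rep r) : Rep (ext False r) := by
  obtain ⟨l, u, h1, h2⟩ := h
  obtain ⟨B, C, hBC, hB, hC⟩ := fin_bounds l u
  refine ⟨Fin.cases B l, Fin.cases C u, ?_, ?_⟩
  · intro a
    rcases Fin.eq_zero_or_eq_succ a with rfl | ⟨i, rfl⟩
    · simp only [Fin.cases_zero]; exact hBC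
    · simp only [Fin.cases_succ]; exact h1 i
  · intro a b
    rcases Fin.eq_zero_or_eq_succ a with rfl | ⟨i, rfl⟩ <;>
      rcases Fin.eq_zero_or_eq_succ b with rfl | ⟨j, rfl⟩
    · simp only [Fin.cases_zero, ne_eq, not_true_eq_false, and_false, false_iff, not_lt]
      exact hBC
    · simp only [Fin.cases_zero, Fin.cases_succ, ext_zs, false_and, false_iff, not_lt]
      linarith [hC j, h1 j]
    · simp only [Fin.cases_zero, Fin.cases_succ, ext_sz, false_and, false_iff, not_lt]
      linarith [hB i, h1 i]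
    · simp only [Fin.cases_succ, ext_ss, ne_eq, Fin.succ_inj]
      exact h2 i j

variable {w n : ℕ} {r : Fin n → Fin n → Prop} {c b : ℝ}

/-- one step of the construction of `Pool.Agent.H293R3.BC.step`, with interval representations -/
theorem step' (hw : 1 ≤ w) (hn1 : 1 ≤ n) (hn : n + 1 ≤ 3 * w - 1)
    (h : G w n r (((n : ℝ) + 1) / 2) b) (hb : b ≤ 1 / 2 - 1 / (12 * ((w : ℝ) + 1) - 8))
    (hrep : Rep r) :
    ∃ (m : ℕ) (q : Fin m → Fin m → Prop), 1 ≤ m ∧ m + 1 ≤ 3 * (w + 1) - 1 ∧
      G (w + 1) m q (((m : ℝ) + 1) / 2) (1 / 2 - 1 / (12 * ((w : ℝ) + 1) - 8)) ∧ Rep q := by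
  have hnR : ((n : ℝ) + 1) ≤ 3 * w - 1 := by
    have h1 : n + 1 + 1 ≤ 3 * w := by omega
    have h2 : ((n + 1 + 1 : ℕ) : ℝ) ≤ ((3 * w : ℕ) : ℝ) := by exact_mod_cast h1
    push_cast at h2
    linarith
  have hn1R : (1 : ℝ) ≤ n := by exact_mod_cast hn1
  have hs : ∀ (n : ℕ) (r : Fin n → Fin n → Prop), 0 < E r → ∀ y,
      ht (ext True r) y.succ = ht r y + 1 := by
    intro n r hE y
    unfold ht
    rw [S_true_succ, E_true]
    field_simp
  have hz : ∀ (n : ℕ) (r : Fin n → Fin n → Prop), 0 < E r → ht (ext True r) 0 = 1 := by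
    intro n r hE
    unfold ht
    rw [S_true_zero, E_true, div_self hE.ne']
  by_cases hk : ∀ y, 1 / 4 ≤ |ht r y - (n : ℝ) / 2|
  · -- one new least element
    have h1 := h.bot hw
    have h2 : G w (n + 1) (ext True r) ((((n + 1 : ℕ) : ℝ) + 1) / 2) b :=
      h1.mono (by push_cast; linarith)
    have h3 := h2.par (b' := 1 / 2 - 1 / (12 * ((w : ℝ) + 1) - 8)) le_rfl hb (by
      push_cast
      have : 1 / (12 * ((w : ℝ) + 1) - 8) ≤ 1 / (4 * ((n : ℝ) + 1 + 1)) := by
        apply one_div_le_one_div_of_le (by positivity)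
        linarith
      linarith) (by
      intro y
      push_cast
      rcases Fin.eq_zero_or_eq_succ y with rfl | ⟨i, rfl⟩
      · rw [hz n r h.pos, abs_sub_comm]
        refine le_trans ?_ (le_abs_self _)
        linarith
      · rw [hs n r h.pos]
        have := hk i
        have e : ht r i + 1 - ((n : ℝ) + 1 + 1) / 2 = ht r i - (n : ℝ) / 2 := by ring
        rw [e]
        exact this)
    refine ⟨n + 1 + 1, ext False (ext True r), by omega, by omega, ?_, rep_false (rep_true hrep)⟩
    have e : (((n + 1 : ℕ) : ℝ) + 1) / 2 * (((n + 1 : ℕ) : ℝ) + 2) / (((n + 1 : ℕ) : ℝ) + 1) =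
        (((n + 1 + 1 : ℕ) : ℝ) + 1) / 2 := by
      push_cast
      field_simp
      ring
    rw [e] at h3
    exact h3
  · -- two new elements
    push Not at hk
    obtain ⟨y0, hy0⟩ := hk
    have hy0' := abs_lt.1 hy0
    have hn2 : (2 : ℝ) ≤ n := by
      have h1 := h.one_le y0
      have h2 : (3 / 2 : ℝ) < n := by linarith [hy0'.2]
      have h3 : 1 < n := by
        by_contra h4
        have h5 : (n : ℝ) ≤ 1 := by exact_mod_cast not_lt.1 h4
        linarith
      exact_mod_cast h3
    have hk2 : ∀ y, 1 / 4 ≤ |ht r y - ((n : ℝ) - 1) / 2| := by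
      intro y
      by_contra hy
      rw [not_le] at hy
      have hy' := abs_lt.1 hy
      by_cases hyy : y = y0
      · subst hyy
        linarith [hy'.2, hy0'.1, hy'.1, hy0'.2]
      · have h1 := h.sep y y0 hyy (by linarith [hy'.2]) (by linarith [hy0'.2])
        rcases le_abs.1 h1 with h2 | h2
        · linarith [hy'.2, hy0'.1]
        · linarith [hy'.1, hy0'.2]
    have h1 := (h.bot hw).bot hw
    have h2 : G w (n + 1 + 1) (ext True (ext True r)) ((((n + 1 + 1 : ℕ) : ℝ) + 1) / 2) b :=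
      h1.mono (by push_cast; linarith)
    have hE1 : 0 < E (ext True r) := by rw [E_true]; exact h.pos
    have h3 := h2.par (b' := 1 / 2 - 1 / (12 * ((w : ℝ) + 1) - 8)) le_rfl hb (by
      push_cast
      have : 1 / (12 * ((w : ℝ) + 1) - 8) ≤ 1 / (4 * ((n : ℝ) + 1 + 1 + 1)) := by
        apply one_div_le_one_div_of_le (by positivity)
        linarith
      linarith) (by
      intro y
      push_cast
      rcases Fin.eq_zero_or_eq_succ y with rfl | ⟨i, rfl⟩
      · rw [hz _ _ hE1, abs_sub_comm]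
        refine le_trans ?_ (le_abs_self _)
        linarith
      · rw [hs _ _ hE1]
        rcases Fin.eq_zero_or_eq_succ i with rfl | ⟨j, rfl⟩
        · rw [hz _ _ h.pos, abs_sub_comm]
          refine le_trans ?_ (le_abs_self _)
          linarith
        · rw [hs _ _ h.pos]
          have := hk2 j
          have e : ht r j + 1 + 1 - ((n : ℝ) + 1 + 1 + 1) / 2 = ht r j - ((n : ℝ) - 1) / 2 := by
            ring
          rw [e]
          exact this)
    refine ⟨n + 1 + 1 + 1, ext False (ext True (ext True r)), by omega, by omega, ?_,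
      rep_false (rep_true (rep_true hrep))⟩
    have e : (((n + 1 + 1 : ℕ) : ℝ) + 1) / 2 * (((n + 1 + 1 : ℕ) : ℝ) + 2) /
        (((n + 1 + 1 : ℕ) : ℝ) + 1) = (((n + 1 + 1 + 1 : ℕ) : ℝ) + 1) / 2 := by
      push_cast
      field_simp
      ring
    rw [e] at h3
    exact h3

theorem exists_poset' (w : ℕ) (hw : 1 ≤ w) : ∃ (n : ℕ) (r : Fin n → Fin n → Prop), 1 ≤ n ∧
    n + 1 ≤ 3 * w - 1 ∧ G w n r (((n : ℝ) + 1) / 2) (1 / 2 - 1 / (12 * (w : ℝ) - 8)) ∧ Rep r := by
  induction w, hw using Nat.le_induction with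
  | base =>
    refine ⟨1, _, le_rfl, by omega, base _, fun _ => 0, fun _ => 0, fun _ => le_rfl, ?_⟩
    intro a b
    simp only [lt_irrefl, iff_false, not_and, not_not]
    intro _
    exact Subsingleton.elim a b
  | succ w hw ih =>
    obtain ⟨n, r, hn1, hn, h, hrep⟩ := ih
    have hw1 : (1 : ℝ) ≤ w := by exact_mod_cast hw
    obtain ⟨m, q, hm1, hm, hq, hqr⟩ := step' hw hn1 hn h (by
      have : 1 / (12 * ((w : ℝ) + 1) - 8) ≤ 1 / (12 * (w : ℝ) - 8) := by
        apply one_div_le_one_div_of_le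
        · linarith
        · linarith
      linarith) hrep
    refine ⟨m, q, hm1, hm, ?_, hqr⟩
    push_cast
    exact hq

/-- a copy of `Fin n` without its order -/
def CT (n : ℕ) : Type := Fin n

instance (n : ℕ) : Fintype (CT n) := inferInstanceAs (Fintype (Fin n))

/-- the order given by a relation -/
@[reducible] def poOf {n : ℕ} (r : Fin n → Fin n → Prop) (h : IsPo r) : PartialOrder (CT n) where
  le a b := r a b
  le_refl := h.1
  le_trans := h.2.1
  le_antisymm := h.2.2

open Pool.Agent.H13R3.WB Pool.Agent.H931R3.Bal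

lemma prob_card {P : Type} [Fintype P] [PartialOrder P] {n : ℕ} (hn : Fintype.card P = n)
    (x y : P) : prob P x y = (Nat.card {f : P ≃ Fin n // Monotone f ∧ f x < f y} : ℝ) /
      Nat.card {f : P ≃ Fin n // Monotone f} := by
  subst hn; rfl

/-- interval orders: `x < y` if and only if the interval of `x` is entirely to the left of the
interval of `y` -/
def IsIntervalOrder (P : Type) [PartialOrder P] : Prop :=
  ∃ l u : P → ℝ, (∀ x, l x ≤ u x) ∧ ∀ x y : P, x < y ↔ u x < l y

theorem exists_interval (w : ℕ) (hw : 1 ≤ w) : ∃ (P : Type) (_ : Fintype P) (_ : PartialOrder P),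
    IsIntervalOrder P ∧ HasWidth P w ∧ balance P ≤ 1 / 2 - 1 / (12 * (w : ℝ) - 8) := by
  obtain ⟨n, r, hn1, -, h, hrep⟩ := exists_poset' w hw
  letI : PartialOrder (CT n) := poOf r h.po
  refine ⟨CT n, inferInstance, inferInstance, ?_, ?_, ?_⟩
  · obtain ⟨l, u, h1, h2⟩ := hrep
    refine ⟨l, u, h1, ?_⟩
    intro x y
    rw [← h2 x y, lt_iff_le_and_ne]
    exact Iff.rfl
  · refine ⟨?_, ?_⟩
    · obtain ⟨s, hs1, hs2⟩ := h.wid
      exact ⟨s, fun a ha b hb hab => hs2 a ha b hb hab, hs1⟩
    · intro s hs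
      exact h.wid_le s (fun a ha b hb hab => hs ha hb hab)
  · have hcard : Fintype.card (CT n) = n := Fintype.card_fin n
    have hne : Nonempty (CT n) := ⟨(⟨0, hn1⟩ : Fin n)⟩
    have hb0 : (0 : ℝ) ≤ 1 / 2 - 1 / (12 * (w : ℝ) - 8) := by
      have hw1 : (1 : ℝ) ≤ w := by exact_mod_cast hw
      have : 1 / (12 * (w : ℝ) - 8) ≤ 1 / 4 := by
        apply one_div_le_one_div_of_le (by norm_num)
        linarith
      linarith
    have hprob : ∀ x y : CT n, prob (CT n) x y = A r x y / E r := by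
      intro x y
      rw [prob_card hcard, ← card_A, ← card_E]
      rfl
    have : Nonempty (CT n × CT n) := inferInstance
    unfold balance
    apply ciSup_le
    rintro ⟨x, y⟩
    simp only
    by_cases hxy : x ≤ y
    · rw [prob_eq_zero_of_le hxy]
      exact (min_le_right _ _).trans hb0
    · by_cases hyx : y ≤ x
      · rw [prob_eq_zero_of_le hyx]
        exact (min_le_left _ _).trans hb0
      · rw [hprob, hprob]
        exact h.bal x y hxy hyx

end Pool.Agent.TH447.KS
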